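import Pool.Agent.Lib.KPL.TF

set_option autoImplicit false

/-! Every `k`-planar graph is contained in `H ⊠ P ⊠ K_m` for some graph `H` of treewidth at most `3`,
some path `P`, and `m = C (k+1)^18` with an absolute constant `C`. -/

namespace Pool.Agent.Results.MP_641db7_co.KPlanarTwThree

/-- There is a constant `C` such that every `k`-planar graph `G` is contained in
`H ⊠ P ⊠ K_m` with `m = C (k+1)^18`, for some graph `H` with `tw(H) ≤ 3` and some path `P`. -/
theorem result : ∃ C : ℕ, ∀ (k : ℕ) (V : Type) (_ : Fintype V) (G : SimpleGraph V),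
    KPT.IsKPlanar k G → KPL.InProduct G 3 (C * (k + 1) ^ 18) :=
  KPT.main

end Pool.Agent.Results.MP_641db7_co.KPlanarTwThree
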